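import Pool.Agent.Results.MP_70f607_gt.ClopenNotOpen
import Pool.Agent.Helper292.ForceCH

/-!
# The equivalence of `S₁(Γ, Ω)` and `S₁(C_Γ, C_Ω)` for sets of irrationals is not a theorem of ZFC

The continuum hypothesis can be forced, and it gives a counterexample. The forcing language is the
one of `Pool.Agent.Helper292.ForceCH`: a sentence is represented by the set of the conditions which
force it, with the usual clauses for the connectives.
-/

set_option autoImplicit false

open Cardinal Set

namespace Pool.Agent.Results.MP_70f607_gt.NotATheorem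

open Pool.Agent.Results.MP_70f607_gt.ClopenNotOpen

/-- (1) Some forcing notion forces, below every condition, that `ω₁` is preserved and that the
continuum hypothesis holds. (2) The continuum hypothesis implies that there is a set `X` of
irrationals such that `C_p(X)` satisfies `S₁(Γ_0, Ω_0)` and `X` satisfies `S₁(C_Γ, C_Ω)`, but `X`
does not satisfy `S₁(Γ, Ω)`. -/
theorem result :
    (∃ (P : Type) (_ : Preorder P), Nonempty P ∧ ∀ p : P,
      p ∈ Pool.Agent.Helper292.ForceCH.OmegaOnePreserved P ∧
      p ∈ Pool.Agent.Helper292.ForceCH.CHHolds P) ∧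
    ((𝔠 : Cardinal.{0}) = ℵ₁ →
      ∃ X : Set ℝ, (∀ x ∈ X, Irrational x) ∧ S1 (Gamma0 X) (Omega0 X) ∧
        S1 (CGamma X) (COmega X) ∧ ¬ S1 (Gamma X) (Omega X)) := by
  refine ⟨?_, fun hCH => ClopenNotOpen.result hCH⟩
  obtain ⟨P, i, h1, h2⟩ := Pool.Agent.Helper292.ForceCH.exists_forcing
  exact ⟨P, i, h1, fun p => ⟨(h2 p).1, (h2 p).2.2⟩⟩

end Pool.Agent.Results.MP_70f607_gt.NotATheorem
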